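import Pool.Agent.Lib.MP_009461_co.Cone.D0
import Pool.Agent.Lib.MP_009461_co.Cone.D1
import Pool.Agent.Lib.MP_009461_co.Cone.D2
import Pool.Agent.Lib.MP_009461_co.Cone.D3
import Pool.Agent.Lib.MP_009461_co.Cone.D4
import Pool.Agent.Lib.MP_009461_co.Cone.D5
import Pool.Agent.Lib.MP_009461_co.Cone.D6

/-!
# All certificates
-/

namespace Pool.Agent.Imp3

theorem ext_all {E N : ℕ} (hE : E < 8) (hN : N < 8) : Ext E N := by
  interval_cases E <;> interval_cases N
  · exact ext_0_0
  · exact ext_0_1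
  · exact ext_0_2
  · exact ext_0_3
  · exact ext_0_4
  · exact ext_0_5
  · exact ext_0_6
  · exact ext_0_7
  · exact ext_1_0
  · exact ext_1_1
  · exact ext_1_2
  · exact ext_1_3
  · exact ext_1_4
  · exact ext_1_5
  · exact ext_1_6
  · exact ext_1_7
  · exact ext_2_0
  · exact ext_2_1
  · exact ext_2_2
  · exact ext_2_3
  · exact ext_2_4
  · exact ext_2_5
  · exact ext_2_6
  · exact ext_2_7
  · exact ext_3_0
  · exact ext_3_1
  · exact ext_3_2
  · exact ext_3_3
  · exact ext_3_4
  · exact ext_3_5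
  · exact ext_3_6
  · exact ext_3_7
  · exact ext_4_0
  · exact ext_4_1
  · exact ext_4_2
  · exact ext_4_3
  · exact ext_4_4
  · exact ext_4_5
  · exact ext_4_6
  · exact ext_4_7
  · exact ext_5_0
  · exact ext_5_1
  · exact ext_5_2
  · exact ext_5_3
  · exact ext_5_4
  · exact ext_5_5
  · exact ext_5_6
  · exact ext_5_7
  · exact ext_6_0
  · exact ext_6_1
  · exact ext_6_2
  · exact ext_6_3
  · exact ext_6_4
  · exact ext_6_5
  · exact ext_6_6
  · exact ext_6_7
  · exact ext_7_0
  · exact ext_7_1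
  · exact ext_7_2
  · exact ext_7_3
  · exact ext_7_4
  · exact ext_7_5
  · exact ext_7_6
  · exact ext_7_7

end Pool.Agent.Imp3
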