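import Mathlib

/-!
# A checker for certificates in linear arithmetic

Linear forms in at most 16 real variables with integer coefficients are lists of natural numbers
(the coefficients plus 64). For the computation they are packed into one number modulo `2 ^ 1024`.
The functions are written with recursors, for the evaluation in the kernel.
-/

namespace Pool.Agent.Imp3

open Finset

/-- base of the packing -/
def bs : ℤ := 18446744073709551616

/-- base of the packing -/
def bN : ℕ := nat_lit 18446744073709551616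

/-- the modulus `2 ^ 1024` -/
def MM : ℕ := nat_lit 179769313486231590772930519078902473361797697894230657273430081157732675805500963132708477322407536021120113879871393357658789768814416622492847430639474124377767893424865485276302219601246094119453082952085005768838150682342462881473913110540827237163350510684586298239947245938479716304835356329624224137216

/-- the modulus minus 64 -/
def CC : ℕ := nat_lit 179769313486231590772930519078902473361797697894230657273430081157732675805500963132708477322407536021120113879871393357658789768814416622492847430639474124377767893424865485276302219601246094119453082952085005768838150682342462881473913110540827237163350510684586298239947245938479716304835356329624224137152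

/-- the packed form of a list of shifted coefficients, before reduction -/
noncomputable def pkr (l : List ℕ) : ℕ :=
  List.rec (motive := fun _ => ℕ) 0 (fun a _ r => Nat.add (Nat.add a CC) (Nat.mul r bN)) l

/-- the packed form of a list of shifted coefficients -/
noncomputable def pkf (l : List ℕ) : ℕ := Nat.mod (pkr l) MM

/-- an integer as a residue -/
noncomputable def cz (a : ℤ) : ℕ :=
  Int.rec (motive := fun _ => ℕ) (fun n => n) (fun n => Nat.sub MM (Nat.succ n)) a

/-- the packed form of a list of coefficients, before reduction -/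
noncomputable def pkzr (l : List ℤ) : ℕ :=
  List.rec (motive := fun _ => ℕ) 0 (fun a _ r => Nat.add (cz a) (Nat.mul r bN)) l

/-- the packed form of a list of coefficients -/
noncomputable def pkz (l : List ℤ) : ℕ := Nat.mod (pkzr l) MM

/-- the list has length at most `n` and small entries -/
def okL (n : ℕ) (l : List ℤ) : Bool :=
  decide (l.length ≤ n) && l.all (fun a => decide (-1000 ≤ a) && decide (a ≤ 1000))

/-- the list has length at most `n` and small entries -/
noncomputable def okf (n : ℕ) (l : List ℕ) : Bool :=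
  List.rec (motive := fun _ => ℕ → Bool) (fun _ => true)
    (fun a _ ih n => Nat.rec (motive := fun _ => Bool) false
      (fun n' _ => Bool.rec (motive := fun _ => Bool) false (ih n') (Nat.ble a 1000)) n) l n

/-- remove the first entries of a list -/
noncomputable def drp {α : Type} (g : ℕ) (F : List α) : List α :=
  Nat.rec (motive := fun _ => List α → List α) (fun F => F)
    (fun _ ih F => List.rec (motive := fun _ => List α) [] (fun _ F' _ => ih F') F) g F

/-- join two lists -/
noncomputable def app {α : Type} (F L : List α) : List α :=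
  List.rec (motive := fun _ => List α) L (fun a _ r => a :: r) F

/-- `T` is `acc` plus a nonnegative combination of the forms in the list -/
noncomputable def row (T : ℕ) (l : List (ℕ × ℕ)) : List ℕ → ℕ → ℕ → Bool :=
  List.rec (motive := fun _ => List ℕ → ℕ → ℕ → Bool)
    (fun _ acc cnt => Bool.rec (motive := fun _ => Bool) false (Nat.ble cnt 1099511627776)
      (Nat.beq (Nat.mod acc MM) T))
    (fun p _ ih F acc cnt => Prod.rec (motive := fun _ => Bool)
      (fun g k => List.rec (motive := fun _ => Bool) false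
        (fun z F' _ => ih F' (Nat.add acc (Nat.mul k z)) (Nat.add cnt k)) (drp g F)) p) l

/-- the form `t` is a nonnegative combination of the forms in the list -/
noncomputable def cmb (F : List ℕ) (p : ℕ × List (ℕ × ℕ)) (t : ℕ) : Bool :=
  Prod.rec (motive := fun _ => Bool)
    (fun c l => Bool.rec (motive := fun _ => Bool) false
      (row (Nat.mod (Nat.mul c t) MM) l F 0 c) (Nat.ble 1 c)) p

/-- certificates -/
inductive Cert
  | leaf (qs : List (List ℕ)) (gs : List (ℕ × ℕ × List (ℕ × ℕ)))
  | split (f : List ℕ) (a b : Cert)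
  | use (k i : ℕ) (us : List (ℕ × List (ℕ × ℕ))) (a : Cert)
  | intro (L U : List (List ℕ)) (ps : List (ℕ × List (ℕ × ℕ))) (a : Cert)

/-- the form `h` is at least every form of the list `D`, except the one with index `i` -/
noncomputable def useOK (F : List ℕ) (h i : ℕ) :
    ℕ → List (List ℤ) → List (ℕ × List (ℕ × ℕ)) → Bool
  | _, [], _ => true
  | j, h' :: D, us =>
    bif Nat.beq j i then useOK F h i (j + 1) D us
    else
      match us with
      | [] => false
      | u :: us' => cmb F u (Nat.add h (Nat.sub MM (pkz h'))) && useOK F h i (j + 1) D us'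

/-- linear combination of packed forms -/
noncomputable def dotn (l : List ℤ) (S : List ℕ) : ℕ :=
  List.rec (motive := fun _ => List ℕ → ℕ) (fun _ => 0)
    (fun a _ ih S => List.rec (motive := fun _ => ℕ) 0
      (fun s S' _ => Nat.add (Nat.mul (cz a) s) (ih S')) S) l S

/-- the goals hold at a leaf -/
noncomputable def leafOK (F S : List ℕ) (G : List (List (List ℤ × List ℤ))) :
    List (ℕ × ℕ × List (ℕ × ℕ)) → Bool :=
  List.rec (motive := fun _ => List (ℕ × ℕ × List (ℕ × ℕ)) → Bool) (fun _ => true)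
    (fun D _ ih gs => List.rec (motive := fun _ => Bool) false
      (fun g gs' _ => Prod.rec (motive := fun _ => Bool)
        (fun a p => List.rec (motive := fun _ => Bool) false
          (fun h _ _ => Prod.rec (motive := fun _ => Bool)
            (fun g1 g2 => Bool.rec (motive := fun _ => Bool) false (ih gs')
              (cmb F p (Nat.add (pkz g1) (dotn g2 S)))) h) (drp a D)) g) gs) G

/-- the pairs of a lower bound `l` with the upper bounds -/
noncomputable def pairOK (F : List ℕ) (n : ℕ) (l : List ℕ) :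
    List (List ℕ) → List (ℕ × List (ℕ × ℕ)) → Option (List (ℕ × List (ℕ × ℕ)))
  | [], ps => some ps
  | _ :: _, [] => none
  | u :: U, p :: ps =>
    bif cmb F p (Nat.add (Nat.mul (Nat.sub 64 (u.getD n 64)) (pkf l))
      (Nat.mul (Nat.sub (l.getD n 64) 64) (pkf u))) then pairOK F n l U ps else none

/-- all pairs of a lower and an upper bound -/
noncomputable def pairsOK (F : List ℕ) (n : ℕ) (U : List (List ℕ)) :
    List (List ℕ) → List (ℕ × List (ℕ × ℕ)) → Bool
  | [], _ => true
  | l :: L, ps =>
    match pairOK F n l U ps with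
    | none => false
    | some ps' => pairsOK F n U L ps'

/-- the checker -/
noncomputable def chk (H : List (List (List ℤ))) (G : List (List (List ℤ × List ℤ))) :
    Cert → ℕ → List ℕ → Bool
  | .leaf qs gs, n, F =>
    Nat.beq qs.length 8 && qs.all (okf n) && leafOK F (qs.map pkf) G gs
  | .split f a b, n, F =>
    okf n f && chk H G a n (app F [pkf f]) && chk H G b n (app F [Nat.sub MM (pkf f)])
  | .use k i us a, n, F =>
    match H[k]? with
    | none => false
    | some D =>
      match D[i]? with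
      | none => false
      | some h => useOK F (pkz h) i 0 D us && chk H G a n (app F [pkz h])
  | .intro L U ps a, n, F =>
    Nat.ble (n + 1) 16 && L.all (fun l => okf (n + 1) l && Nat.ble 65 (l.getD n 64)) &&
      U.all (fun l => okf (n + 1) l && Nat.ble (l.getD n 64) 63) && pairsOK F n U L ps &&
      chk H G a (n + 1) (app F (L.map pkf ++ U.map pkf))

/-! ### Semantics -/

/-- The form of a list of shifted coefficients -/
def fn (l : List ℕ) : Fin 16 → ℤ := fun i => (l.getD i 64 : ℤ) - 64

/-- The form of a list of coefficients -/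
def fz (l : List ℤ) : Fin 16 → ℤ := fun i => l.getD i 0

/-- packing -/
def pk (f : Fin 16 → ℤ) : ℤ := ∑ i : Fin 16, f i * bs ^ (i : ℕ)

/-- evaluation -/
noncomputable def ev (f : Fin 16 → ℤ) (x : Fin 16 → ℝ) : ℝ := ∑ i : Fin 16, (f i : ℝ) * x i

/-- the form is small -/
def Sm (K : ℤ) (f : Fin 16 → ℤ) : Prop := ∀ i, |f i| ≤ K

theorem pk_add (f g : Fin 16 → ℤ) : pk (f + g) = pk f + pk g := by
  simp only [pk, Pi.add_apply, add_mul, sum_add_distrib]

theorem pk_smul (c : ℤ) (f : Fin 16 → ℤ) : pk (c • f) = c * pk f := by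
  simp only [pk, Pi.smul_apply, smul_eq_mul, mul_sum, mul_assoc]

theorem pk_sub (f g : Fin 16 → ℤ) : pk (f - g) = pk f - pk g := by
  simp only [pk, Pi.sub_apply, sub_mul, sum_sub_distrib]

theorem pk_neg (f : Fin 16 → ℤ) : pk (-f) = - pk f := by
  simp only [pk, Pi.neg_apply, neg_mul, sum_neg_distrib]

theorem pk_zero : pk 0 = 0 := by simp [pk]

theorem ev_add (f g : Fin 16 → ℤ) (x) : ev (f + g) x = ev f x + ev g x := by
  simp only [ev, Pi.add_apply, Int.cast_add, add_mul, sum_add_distrib]

theorem ev_sub (f g : Fin 16 → ℤ) (x) : ev (f - g) x = ev f x - ev g x := by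
  simp only [ev, Pi.sub_apply, Int.cast_sub, sub_mul, sum_sub_distrib]

theorem ev_neg (f : Fin 16 → ℤ) (x) : ev (-f) x = - ev f x := by
  simp only [ev, Pi.neg_apply, Int.cast_neg, neg_mul, sum_neg_distrib]

theorem ev_smul (c : ℤ) (f : Fin 16 → ℤ) (x) : ev (c • f) x = c * ev f x := by
  simp only [ev, Pi.smul_apply, smul_eq_mul, Int.cast_mul, mul_sum, mul_assoc]

theorem ev_zero (x) : ev 0 x = 0 := by simp [ev]

theorem bN_eq : ((bN : ℕ) : ℤ) = bs := rfl

theorem MM_eq : ((MM : ℕ) : ℤ) = bs ^ 16 := by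
  have h : (MM : ℕ) = 18446744073709551616 ^ 16 := by
    change (179769313486231590772930519078902473361797697894230657273430081157732675805500963132708477322407536021120113879871393357658789768814416622492847430639474124377767893424865485276302219601246094119453082952085005768838150682342462881473913110540827237163350510684586298239947245938479716304835356329624224137216 : ℕ) = _
    norm_num
  rw [h]
  norm_num [bs]

theorem CC_eq : CC = MM - 64 := by
  change (179769313486231590772930519078902473361797697894230657273430081157732675805500963132708477322407536021120113879871393357658789768814416622492847430639474124377767893424865485276302219601246094119453082952085005768838150682342462881473913110540827237163350510684586298239947245938479716304835356329624224137152 : ℕ) = (179769313486231590772930519078902473361797697894230657273430081157732675805500963132708477322407536021120113879871393357658789768814416622492847430639474124377767893424865485276302219601246094119453082952085005768838150682342462881473913110540827237163350510684586298239947245938479716304835356329624224137216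 : ℕ) - 64
  norm_num

theorem MM_pos : 0 < MM := by
  change 0 < (179769313486231590772930519078902473361797697894230657273430081157732675805500963132708477322407536021120113879871393357658789768814416622492847430639474124377767893424865485276302219601246094119453082952085005768838150682342462881473913110540827237163350510684586298239947245938479716304835356329624224137216 : ℕ)
  norm_num

theorem MM_big : 1024 ≤ MM := by
  change 1024 ≤ (179769313486231590772930519078902473361797697894230657273430081157732675805500963132708477322407536021120113879871393357658789768814416622492847430639474124377767893424865485276302219601246094119453082952085005768838150682342462881473913110540827237163350510684586298239947245938479716304835356329624224137216 : ℕ)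
  norm_num

/-- uniqueness of the packed form -/
theorem eq_zero_of_pk : ∀ (n : ℕ) (f : Fin n → ℤ) (k : ℤ), (∀ i, |f i| < 9223372036854775808) →
    ∑ i : Fin n, f i * bs ^ (i : ℕ) + k * bs ^ n = 0 → f = 0 := by
  intro n
  induction n with
  | zero => intro f k _ _; ext i; exact i.elim0
  | succ n ih =>
    intro f k hb h
    rw [Fin.sum_univ_succ] at h
    have h1 : ∑ i : Fin n, f i.succ * bs ^ ((i.succ : Fin (n + 1)) : ℕ) =
        bs * ∑ i : Fin n, f i.succ * bs ^ (i : ℕ) := by
      rw [mul_sum]
      refine sum_congr rfl fun i _ => ?_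
      rw [Fin.val_succ, pow_succ]; ring
    rw [h1] at h
    simp only [Fin.val_zero, pow_zero, mul_one] at h
    have h0 := hb 0
    rw [abs_lt] at h0
    set s := ∑ i : Fin n, f i.succ * bs ^ (i : ℕ) + k * bs ^ n with hs
    have h' : f 0 + bs * s = 0 := by rw [hs, ← h, pow_succ]; ring
    have hbs : bs = 18446744073709551616 := rfl
    rw [hbs] at h'
    have hs0 : s = 0 := by omega
    have hf0 : f 0 = 0 := by omega
    have := ih (fun i => f i.succ) k (fun i => hb _) hs0
    ext i
    refine Fin.cases hf0 (fun j => ?_) i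
    exact congrFun this j

/-- the number `z` represents the form `f` -/
def Rp (z : ℕ) (f : Fin 16 → ℤ) : Prop := ∃ k : ℤ, (z : ℤ) = pk f + k * MM

theorem Rp.uniq {z : ℕ} {f g : Fin 16 → ℤ} (hf : Rp z f) (hg : Rp z g)
    (h : Sm 9223372036854775807 (f - g)) : f = g := by
  obtain ⟨k, hk⟩ := hf
  obtain ⟨l, hl⟩ := hg
  have : f - g = 0 := by
    refine eq_zero_of_pk 16 _ (k - l) (fun i => lt_of_le_of_lt (h i) (by norm_num)) ?_
    have e : ∑ i : Fin 16, (f - g) i * bs ^ (i : ℕ) = pk f - pk g := by rw [← pk_sub]; rfl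
    rw [e, ← MM_eq]
    linear_combination hl - hk
  exact sub_eq_zero.1 this

theorem Rp.mod {z : ℕ} {f : Fin 16 → ℤ} (h : Rp z f) : Rp (Nat.mod z MM) f := by
  obtain ⟨k, hk⟩ := h
  refine ⟨k - (z / MM : ℕ), ?_⟩
  have h1 : ((Nat.mod z MM : ℕ) : ℤ) + MM * ((z / MM : ℕ) : ℤ) = z := by
    exact_mod_cast Nat.mod_add_div z MM
  linear_combination h1 + hk

theorem Rp.add {z w : ℕ} {f g : Fin 16 → ℤ} (hf : Rp z f) (hg : Rp w g) :
    Rp (Nat.add z w) (f + g) := by
  obtain ⟨k, hk⟩ := hf
  obtain ⟨l, hl⟩ := hg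
  refine ⟨k + l, ?_⟩
  change ((z + w : ℕ) : ℤ) = _
  rw [pk_add]; push_cast
  linear_combination hk + hl

theorem Rp.smul {z : ℕ} {f : Fin 16 → ℤ} (hf : Rp z f) {c : ℕ} {a : ℤ}
    (hc : ∃ l : ℤ, (c : ℤ) = a + l * MM) : Rp (Nat.mul c z) (a • f) := by
  obtain ⟨k, hk⟩ := hf
  obtain ⟨l, hl⟩ := hc
  refine ⟨l * z + a * k, ?_⟩
  change ((c * z : ℕ) : ℤ) = _
  rw [pk_smul]; push_cast
  rw [hl]
  linear_combination a * hk

theorem Rp.mul {z : ℕ} {f : Fin 16 → ℤ} (hf : Rp z f) (c : ℕ) : Rp (Nat.mul c z) ((c : ℤ) • f) :=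
  hf.smul ⟨0, by ring⟩

theorem Rp.neg {z : ℕ} {f : Fin 16 → ℤ} (hf : Rp z f) (hz : z < MM) :
    Rp (Nat.sub MM z) (-f) := by
  obtain ⟨k, hk⟩ := hf
  refine ⟨1 - k, ?_⟩
  change ((MM - z : ℕ) : ℤ) = _
  rw [Nat.cast_sub hz.le, pk_neg, hk]
  ring

theorem Rp.zero : Rp 0 0 := ⟨0, by rw [pk_zero]; simp⟩

theorem pkf_lt (l : List ℕ) : pkf l < MM := Nat.mod_lt _ MM_pos

theorem pkz_lt (l : List ℤ) : pkz l < MM := Nat.mod_lt _ MM_pos

theorem pkr_eq (n : ℕ) (l : List ℕ) (h : l.length ≤ n) :
    ∃ k : ℤ, (pkr l : ℤ) = ∑ i : Fin n, ((l.getD i 64 : ℤ) - 64) * bs ^ (i : ℕ) + k * MM := by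
  induction l generalizing n with
  | nil => exact ⟨0, by simp [pkr]⟩
  | cons a l ih =>
    obtain _ | n := n
    · simp at h
    · obtain ⟨k, hk⟩ := ih n (by simpa using h)
      refine ⟨1 + bs * k, ?_⟩
      have e : (pkr (a :: l) : ℤ) = (a : ℤ) + (MM - 64) + bs * (pkr l : ℤ) := by
        have e1 : pkr (a :: l) = (a + CC) + pkr l * bN := rfl
        have e2 : ((CC : ℕ) : ℤ) = MM - 64 := by
          rw [CC_eq, Nat.cast_sub ((by norm_num : 64 ≤ 1024).trans MM_big)]; rfl
        rw [e1]; push_cast
        rw [e2, bN_eq]; ring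
      rw [e, hk, Fin.sum_univ_succ]
      have e3 : ∑ i : Fin n, ((((a :: l).getD ((i.succ : Fin (n + 1)) : ℕ) 64 : ℕ) : ℤ) - 64) *
          bs ^ ((i.succ : Fin (n + 1)) : ℕ) =
          bs * ∑ i : Fin n, ((l.getD i 64 : ℤ) - 64) * bs ^ (i : ℕ) := by
        rw [mul_sum]
        refine sum_congr rfl fun i _ => ?_
        rw [Fin.val_succ, pow_succ, List.getD_cons_succ]; ring
      rw [e3]
      simp only [Fin.val_zero, pow_zero, mul_one, List.getD_cons_zero]
      ring

theorem pkf_rp {l : List ℕ} (h : l.length ≤ 16) : Rp (pkf l) (fn l) := by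
  obtain ⟨k, hk⟩ := pkr_eq 16 l h
  exact Rp.mod ⟨k, hk⟩

theorem cz_eq {a : ℤ} (h : |a| ≤ 1000) : ∃ l : ℤ, (cz a : ℤ) = a + l * MM := by
  obtain n | n := a
  · exact ⟨0, by rw [zero_mul, add_zero]; rfl⟩
  · refine ⟨1, ?_⟩
    have h1 : ((n : ℕ) : ℤ) + 1 ≤ 1000 := by
      rw [abs_le] at h
      have := h.1
      have e : Int.negSucc n = -((n : ℤ) + 1) := Int.negSucc_eq n
      rw [e] at this
      linarith
    have h2 : Nat.succ n ≤ MM := by
      have := MM_big
      have h3 : n + 1 ≤ 1000 := by exact_mod_cast h1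
      omega
    change ((MM - Nat.succ n : ℕ) : ℤ) = _
    rw [Nat.cast_sub h2, Int.negSucc_eq]
    push_cast
    ring

theorem pkzr_eq (n : ℕ) (l : List ℤ) (h : l.length ≤ n) (hl : ∀ a ∈ l, |a| ≤ 1000) :
    ∃ k : ℤ, (pkzr l : ℤ) = ∑ i : Fin n, l.getD i 0 * bs ^ (i : ℕ) + k * MM := by
  induction l generalizing n with
  | nil => exact ⟨0, by simp [pkzr]⟩
  | cons a l ih =>
    obtain _ | n := n
    · simp at h
    · obtain ⟨k, hk⟩ := ih n (by simpa using h) (fun b hb => hl b (by simp [hb]))
      obtain ⟨c, hc⟩ := cz_eq (hl a (by simp))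
      refine ⟨c + bs * k, ?_⟩
      have e : (pkzr (a :: l) : ℤ) = (cz a : ℤ) + bs * (pkzr l : ℤ) := by
        have e1 : pkzr (a :: l) = cz a + pkzr l * bN := rfl
        rw [e1]; push_cast
        rw [bN_eq]; ring
      rw [e, hk, hc, Fin.sum_univ_succ]
      have e3 : ∑ i : Fin n, ((a :: l).getD ((i.succ : Fin (n + 1)) : ℕ) 0) *
          bs ^ ((i.succ : Fin (n + 1)) : ℕ) = bs * ∑ i : Fin n, l.getD i 0 * bs ^ (i : ℕ) := by
        rw [mul_sum]
        refine sum_congr rfl fun i _ => ?_
        rw [Fin.val_succ, pow_succ, List.getD_cons_succ]; ring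
      rw [e3]
      simp only [Fin.val_zero, pow_zero, mul_one, List.getD_cons_zero]
      ring

theorem okL_len {n : ℕ} {l : List ℤ} (h : okL n l = true) : l.length ≤ n := by
  simp only [okL, Bool.and_eq_true, decide_eq_true_eq] at h
  exact h.1

theorem okL_abs {n : ℕ} {l : List ℤ} (h : okL n l = true) : ∀ a ∈ l, |a| ≤ 1000 := by
  simp only [okL, Bool.and_eq_true, decide_eq_true_eq, List.all_eq_true] at h
  exact fun a ha => abs_le.2 (h.2 a ha)

theorem pkz_rp {n : ℕ} {l : List ℤ} (hn : n ≤ 16) (h : okL n l = true) : Rp (pkz l) (fz l) := by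
  obtain ⟨k, hk⟩ := pkzr_eq 16 l ((okL_len h).trans hn) (okL_abs h)
  exact Rp.mod ⟨k, hk⟩

theorem okL_sm {n : ℕ} {l : List ℤ} (h : okL n l = true) : Sm 1000 (fz l) := by
  intro i
  unfold fz
  rcases lt_or_ge (i : ℕ) l.length with hi | hi
  · rw [List.getD_eq_getElem _ _ hi]
    exact okL_abs h _ (List.getElem_mem hi)
  · rw [List.getD_eq_default _ _ hi]; simp

theorem fz_zero {n : ℕ} {l : List ℤ} (h : l.length ≤ n) (i : Fin 16) (hi : n ≤ i) :
    fz l i = 0 := by
  unfold fz
  rw [List.getD_eq_default _ _ (h.trans hi)]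

theorem okf_cons_succ (n a : ℕ) (l : List ℕ) :
    okf (n + 1) (a :: l) = (Nat.ble a 1000 && okf n l) := by
  change Bool.rec (motive := fun _ => Bool) false (okf n l) (Nat.ble a 1000) = _
  cases Nat.ble a 1000 <;> rfl

theorem okf_spec {n : ℕ} {l : List ℕ} (h : okf n l = true) :
    l.length ≤ n ∧ ∀ a ∈ l, a ≤ 1000 := by
  induction l generalizing n with
  | nil => simp
  | cons a l ih =>
    obtain _ | n := n
    · exact absurd h (by change ¬ (false = true); decide)
    · rw [okf_cons_succ, Bool.and_eq_true] at h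
      obtain ⟨h1, h2⟩ := ih h.2
      refine ⟨by simpa using h1, ?_⟩
      intro b hb
      rcases List.mem_cons.1 hb with rfl | hb
      · exact Nat.le_of_ble_eq_true h.1
      · exact h2 b hb

theorem okf_len {n : ℕ} {l : List ℕ} (h : okf n l = true) : l.length ≤ n := (okf_spec h).1

theorem okf_sm {n : ℕ} {l : List ℕ} (h : okf n l = true) : Sm 1000 (fn l) := by
  intro i
  unfold fn
  rcases lt_or_ge (i : ℕ) l.length with hi | hi
  · rw [List.getD_eq_getElem _ _ hi]
    have := (okf_spec h).2 _ (List.getElem_mem hi)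
    have h1 : ((l[(i : ℕ)] : ℕ) : ℤ) ≤ 1000 := by exact_mod_cast this
    have h2 : (0 : ℤ) ≤ ((l[(i : ℕ)] : ℕ) : ℤ) := by positivity
    rw [abs_le]; constructor <;> linarith
  · rw [List.getD_eq_default _ _ hi]; simp

theorem fn_zero {n : ℕ} {l : List ℕ} (h : l.length ≤ n) (i : Fin 16) (hi : n ≤ i) :
    fn l i = 0 := by
  unfold fn
  rw [List.getD_eq_default _ _ (h.trans hi)]; simp

/-- The forms in the context: nonnegative, small, without the variables from `n` on -/
structure Ok (n : ℕ) (x : Fin 16 → ℝ) (f : Fin 16 → ℤ) : Prop where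
  nn : 0 ≤ ev f x
  sm : Sm 1000 f
  z : ∀ i : Fin 16, n ≤ i → f i = 0

/-- the numbers of the context represent such forms -/
def Cx (n : ℕ) (x : Fin 16 → ℝ) (F : List ℕ) : Prop := ∀ z ∈ F, ∃ f, Ok n x f ∧ Rp z f

theorem drp_eq {α : Type} (g : ℕ) (F : List α) : drp g F = F.drop g := by
  induction g generalizing F with
  | zero => rfl
  | succ g ih =>
    cases F with
    | nil =>
      change ([] : List α) = _
      rw [List.drop_nil]
    | cons a F => exact ih F

theorem app_eq {α : Type} (F L : List α) : app F L = F ++ L := by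
  induction F with
  | nil => rfl
  | cons a F ih => exact congrArg (a :: ·) ih

theorem row_nil (T : ℕ) (F : List ℕ) (acc cnt : ℕ) :
    row T [] F acc cnt = (Nat.ble cnt 1099511627776 && Nat.beq (Nat.mod acc MM) T) := by
  change Bool.rec (motive := fun _ => Bool) false (Nat.ble cnt 1099511627776)
      (Nat.beq (Nat.mod acc MM) T) = _
  cases Nat.beq (Nat.mod acc MM) T <;> cases Nat.ble cnt 1099511627776 <;> rfl

theorem row_cons (T g k : ℕ) (l : List (ℕ × ℕ)) (F : List ℕ) (acc cnt : ℕ) :
    row T ((g, k) :: l) F acc cnt = List.rec (motive := fun _ => Bool) false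
      (fun z F' _ => row T l F' (Nat.add acc (Nat.mul k z)) (Nat.add cnt k)) (drp g F) := rfl

theorem row_sound (n : ℕ) (x : Fin 16 → ℝ) (T : ℕ) (l : List (ℕ × ℕ)) :
    ∀ (F : List ℕ) (acc cnt : ℕ) (g : Fin 16 → ℤ), Cx n x F → Rp acc g → 0 ≤ ev g x →
    Sm (1000 * cnt) g → row T l F acc cnt = true →
    cnt ≤ 1099511627776 ∧ ∃ g', Rp T g' ∧ 0 ≤ ev g' x ∧ Sm 1099511627776000 g' := by
  induction l with
  | nil =>
    intro F acc cnt g _ hr h0 hs h
    rw [row_nil, Bool.and_eq_true] at h
    have h1 := Nat.eq_of_beq_eq_true h.2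
    have h2 : cnt ≤ 1099511627776 := Nat.le_of_ble_eq_true h.1
    refine ⟨h2, g, h1 ▸ hr.mod, h0, fun i => (hs i).trans ?_⟩
    have h2' : (cnt : ℤ) ≤ 1099511627776 := by exact_mod_cast h2
    linarith
  | cons p l ih =>
    obtain ⟨g, k⟩ := p
    intro F acc cnt f hF hr h0 hs h
    rw [row_cons, drp_eq] at h
    rcases hd : F.drop g with _ | ⟨z, F'⟩
    · rw [hd] at h
      exact absurd h (by change ¬ (false = true); decide)
    · rw [hd] at h
      change row T l F' (Nat.add acc (Nat.mul k z)) (Nat.add cnt k) = true at h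
      have hz : z ∈ F := List.mem_of_mem_drop (by rw [hd]; exact List.mem_cons_self)
      have hF' : Cx n x F' := fun g' hg' =>
        hF g' (List.mem_of_mem_drop (i := g) (by rw [hd]; exact List.mem_cons_of_mem _ hg'))
      obtain ⟨e, he, hze⟩ := hF z hz
      have hk0 : (0 : ℤ) ≤ (k : ℤ) := by positivity
      have hev : 0 ≤ ev (f + (k : ℤ) • e) x := by
        rw [ev_add, ev_smul]
        have h3 : (0 : ℝ) ≤ ((k : ℤ) : ℝ) * ev e x := mul_nonneg (by exact_mod_cast hk0) he.nn
        linarith
      have hsm : Sm (1000 * ((Nat.add cnt k : ℕ) : ℤ)) (f + (k : ℤ) • e) := by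
        intro i
        have h1 := hs i
        have h2 := he.sm i
        simp only [Pi.add_apply, Pi.smul_apply, smul_eq_mul]
        have h3 : |(k : ℤ) * e i| ≤ k * 1000 := by
          rw [abs_mul, abs_of_nonneg hk0]
          exact mul_le_mul_of_nonneg_left h2 hk0
        have h4 := abs_add_le (f i) ((k : ℤ) * e i)
        change _ ≤ 1000 * (((cnt + k : ℕ)) : ℤ)
        push_cast
        linarith
      obtain ⟨hc, h'⟩ := ih F' _ _ (f + (k : ℤ) • e) hF' (hr.add (hze.mul k)) hev hsm h
      exact ⟨(Nat.le_add_right cnt k).trans hc, h'⟩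

theorem cmb_eq (F : List ℕ) (c : ℕ) (l : List (ℕ × ℕ)) (t : ℕ) :
    cmb F (c, l) t = (Nat.ble 1 c && row (Nat.mod (Nat.mul c t) MM) l F 0 c) := by
  change Bool.rec (motive := fun _ => Bool) false
      (row (Nat.mod (Nat.mul c t) MM) l F 0 c) (Nat.ble 1 c) = _
  cases Nat.ble 1 c <;> rfl

theorem cmb_sound {n : ℕ} {x : Fin 16 → ℝ} {F : List ℕ} (hF : Cx n x F)
    {f : Fin 16 → ℤ} (hs : Sm 2097152 f) {t : ℕ} (ht : Rp t f) {p : ℕ × List (ℕ × ℕ)}
    (h : cmb F p t = true) : 0 ≤ ev f x := by
  obtain ⟨c, l⟩ := p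
  rw [cmb_eq, Bool.and_eq_true] at h
  have h0 : 1 ≤ c := Nat.le_of_ble_eq_true h.1
  obtain ⟨hc, g, hg1, hg2, hg3⟩ := row_sound n x _ l F 0 c 0 hF Rp.zero (by rw [ev_zero])
    (fun i => by simp) h.2
  have e : (c : ℤ) • f = g := by
    refine (ht.mul c).mod.uniq hg1 (fun i => ?_)
    have h1 := hg3 i
    have h2 : |(c : ℤ) * f i| ≤ 1099511627776 * 2097152 := by
      rw [abs_mul, abs_of_nonneg (by positivity : (0 : ℤ) ≤ c)]
      exact mul_le_mul (by exact_mod_cast hc) (hs i) (abs_nonneg _) (by norm_num)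
    have h3 := abs_sub ((c : ℤ) * f i) (g i)
    simp only [Pi.sub_apply, Pi.smul_apply, smul_eq_mul]
    linarith
  rw [← e, ev_smul] at hg2
  have h1 : (0 : ℝ) < ((c : ℤ) : ℝ) := by exact_mod_cast h0
  exact nonneg_of_mul_nonneg_right hg2 h1

theorem useOK_sound {n : ℕ} {x : Fin 16 → ℝ} {F : List ℕ} (hF : Cx n x F)
    {h : List ℤ} (hh : okL 9 h = true) (i : ℕ) :
    ∀ (D : List (List ℤ)) (j : ℕ) (us : List (ℕ × List (ℕ × ℕ))), (∀ h' ∈ D, okL 9 h' = true) →
    (∀ t h', D[t]? = some h' → j + t = i → h' = h) →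
    useOK F (pkz h) i j D us = true → ∀ h' ∈ D, ev (fz h') x ≤ ev (fz h) x := by
  intro D
  induction D with
  | nil => intro j us _ _ _ h' hh'; simp at hh'
  | cons a D ih =>
    intro j us hD hi hu h' hh'
    have hD' : ∀ h' ∈ D, okL 9 h' = true := fun h' q => hD h' (List.mem_cons_of_mem _ q)
    have hi' : ∀ t h', D[t]? = some h' → j + 1 + t = i → h' = h := by
      intro t h' h1 h2
      exact hi (t + 1) h' (by simpa using h1) (by omega)
    unfold useOK at hu
    by_cases hji : j = i
    · have hb : Nat.beq j i = true := by rw [hji]; exact Nat.beq_refl i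
      rw [hb, cond_true] at hu
      rcases List.mem_cons.1 hh' with rfl | hm
      · rw [hi 0 h' (by simp) (by simpa using hji)]
      · exact ih (j + 1) us hD' hi' hu h' hm
    · have hb : Nat.beq j i = false := by
        rw [Bool.eq_false_iff]
        exact fun hb => hji (Nat.eq_of_beq_eq_true hb)
      rw [hb, cond_false] at hu
      rcases us with _ | ⟨u, us⟩
      · simp at hu
      · simp only [Bool.and_eq_true] at hu
        rcases List.mem_cons.1 hh' with rfl | hm
        · have ha := hD h' List.mem_cons_self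
          have hr : Rp (Nat.add (pkz h) (Nat.sub MM (pkz h'))) (fz h + -fz h') :=
            (pkz_rp (by norm_num) hh).add ((pkz_rp (by norm_num) ha).neg (pkz_lt h'))
          have := cmb_sound hF ?_ hr hu.1
          · rw [ev_add, ev_neg] at this; linarith
          · intro t
            have h1 := okL_sm hh t
            have h2 := okL_sm ha t
            have h3 := abs_add_le (fz h t) (-fz h' t)
            rw [abs_neg] at h3
            simp only [Pi.add_apply, Pi.neg_apply]
            linarith
        · exact ih (j + 1) us hD' hi' hu.2 h' hm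

/-! ### Leaves -/

/-- the goal is small -/
def okG (g : List ℤ × List ℤ) : Bool :=
  okL 9 g.1 && g.2.all (fun a => decide (-100 ≤ a) && decide (a ≤ 100))

/-- linear combination of forms -/
def lc : List ℤ → List (List ℕ) → (Fin 16 → ℤ)
  | a :: l, s :: S => a • fn s + lc l S
  | _, _ => 0

theorem dotn_cons (a : ℤ) (l : List ℤ) (s : ℕ) (S : List ℕ) :
    dotn (a :: l) (s :: S) = Nat.add (Nat.mul (cz a) s) (dotn l S) := rfl

theorem dotn_rp : ∀ (l : List ℤ) (S : List (List ℕ)), (∀ a ∈ l, |a| ≤ 100) →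
    (∀ s ∈ S, s.length ≤ 16) → Rp (dotn l (S.map pkf)) (lc l S)
  | [], S, _, _ => by
    have e : lc [] S = 0 := by simp [lc]
    rw [e]; exact Rp.zero
  | a :: l, [], _, _ => by
    have e : lc (a :: l) [] = 0 := by simp [lc]
    rw [e]; exact Rp.zero
  | a :: l, s :: S, hl, h => by
    rw [List.map_cons, lc, dotn_cons]
    exact ((pkf_rp (h s (by simp))).smul (cz_eq ((hl a (by simp)).trans (by norm_num)))).add
      (dotn_rp l S (fun b hb => hl b (by simp [hb])) fun t ht => h t (by simp [ht]))

theorem lc_sm : ∀ (l : List ℤ) (S : List (List ℕ)), (∀ a ∈ l, |a| ≤ 100) →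
    (∀ s ∈ S, Sm 1000 (fn s)) → Sm (100000 * S.length) (lc l S)
  | [], S, _, _ => by intro i; simp [lc]
  | a :: l, [], _, _ => by intro i; simp [lc]
  | a :: l, s :: S, h, h' => by
    intro i
    have h1 := lc_sm l S (fun t ht => h t (by simp [ht])) (fun t ht => h' t (by simp [ht])) i
    have h2 := h' s (by simp) i
    have h3 := h a (by simp)
    simp only [lc, Pi.add_apply, Pi.smul_apply, smul_eq_mul, List.length_cons]
    have h4 : |a * fn s i| ≤ 100 * 1000 := by
      rw [abs_mul]; exact mul_le_mul h3 h2 (abs_nonneg _) (by norm_num)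
    have h5 := abs_add_le (a * fn s i) (lc l S i)
    push_cast
    linarith

theorem lc_ev (x : Fin 16 → ℝ) : ∀ (l : List ℤ) (S : List (List ℕ)),
    ev (lc l S) x = ∑ T ∈ range S.length, ((l.getD T 0 : ℤ) : ℝ) * ev (fn (S.getD T [])) x
  | [], S => by simp [lc, ev_zero]
  | a :: l, [] => by simp [lc, ev_zero]
  | a :: l, s :: S => by
    rw [lc, ev_add, ev_smul, lc_ev x l S, List.length_cons, sum_range_succ']
    simp only [List.getD_cons_succ, List.getD_cons_zero]
    ring

/-- evaluation of a goal -/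
noncomputable def evg (g : List ℤ × List ℤ) (x : Fin 16 → ℝ) (q : ℕ → ℝ) : ℝ :=
  ev (fz g.1) x + ∑ T ∈ range 8, ((g.2.getD T 0 : ℤ) : ℝ) * q T

theorem leafOK_cons (F S : List ℕ) (D : List (List ℤ × List ℤ)) (G) (a : ℕ)
    (p : ℕ × List (ℕ × ℕ)) (gs) : leafOK F S (D :: G) ((a, p) :: gs) =
      List.rec (motive := fun _ => Bool) false
        (fun h _ _ => Prod.rec (motive := fun _ => Bool)
          (fun g1 g2 => Bool.rec (motive := fun _ => Bool) false (leafOK F S G gs)
            (cmb F p (Nat.add (pkz g1) (dotn g2 S)))) h) (drp a D) := rfl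

theorem leafOK_sound {n : ℕ} {x : Fin 16 → ℝ} {F : List ℕ} (hF : Cx n x F)
    {qs : List (List ℕ)} (hl : qs.length = 8) (hq : ∀ s ∈ qs, s.length ≤ 16 ∧ Sm 1000 (fn s)) :
    ∀ (G : List (List (List ℤ × List ℤ))) (gs : List (ℕ × ℕ × List (ℕ × ℕ))),
    (∀ D ∈ G, ∀ g ∈ D, okG g = true) → leafOK F (qs.map pkf) G gs = true →
    ∀ D ∈ G, ∃ g ∈ D, 0 ≤ evg g x (fun T => ev (fn (qs.getD T [])) x) := by
  intro G
  induction G with
  | nil => intro gs _ _ D hD; simp at hD
  | cons D G ih =>
    intro gs hok h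
    rcases gs with _ | ⟨⟨a, p⟩, gs⟩
    · exact absurd h (by change ¬ (false = true); decide)
    · rw [leafOK_cons, drp_eq] at h
      rcases hDa : D.drop a with _ | ⟨g, D'⟩
      · rw [hDa] at h
        exact absurd h (by change ¬ (false = true); decide)
      · rw [hDa] at h
        obtain ⟨g1, g2⟩ := g
        change Bool.rec (motive := fun _ => Bool) false (leafOK F (qs.map pkf) G gs)
            (cmb F p (Nat.add (pkz g1) (dotn g2 (qs.map pkf)))) = true at h
        have h12 : cmb F p (Nat.add (pkz g1) (dotn g2 (qs.map pkf))) = true ∧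
            leafOK F (qs.map pkf) G gs = true := by
          revert h
          cases cmb F p (Nat.add (pkz g1) (dotn g2 (qs.map pkf)))
          · intro h; exact absurd h (by change ¬ (false = true); decide)
          · intro h; exact ⟨rfl, h⟩
        have hg : (g1, g2) ∈ D := List.mem_of_mem_drop (i := a) (by rw [hDa]; simp)
        have hgo := hok D (by simp) _ hg
        simp only [okG, Bool.and_eq_true, List.all_eq_true, decide_eq_true_eq] at hgo
        have hgo2 : ∀ b ∈ g2, |b| ≤ 100 := fun b hb => abs_le.2 (hgo.2 b hb)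
        intro D' hD'
        rcases List.mem_cons.1 hD' with rfl | hD'
        · refine ⟨(g1, g2), hg, ?_⟩
          have hr : Rp (Nat.add (pkz g1) (dotn g2 (qs.map pkf))) (fz g1 + lc g2 qs) :=
            (pkz_rp (by norm_num) hgo.1).add (dotn_rp g2 qs hgo2 fun s hs => (hq s hs).1)
          have h1 := cmb_sound hF ?_ hr h12.1
          · rw [ev_add, lc_ev, hl] at h1
            exact h1
          · intro i
            have h2 := okL_sm hgo.1 i
            have h3 := lc_sm g2 qs hgo2 (fun s hs => (hq s hs).2) i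
            rw [hl] at h3
            have h4 := abs_add_le (fz g1 i) (lc g2 qs i)
            simp only [Pi.add_apply]
            push_cast at h3
            linarith
        · exact ih gs (fun D hD => hok D (by simp [hD])) h12.2 D' hD'

/-! ### Introduction of a variable -/

theorem ev_update (f : Fin 16 → ℤ) (x : Fin 16 → ℝ) (i : Fin 16) (t : ℝ) :
    ev f (Function.update x i t) = ev f x + f i * (t - x i) := by
  have h : ∀ y : Fin 16 → ℝ, ev f y = (f i : ℝ) * y i + ∑ j ∈ univ.erase i, (f j : ℝ) * y j := by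
    intro y
    rw [ev, ← Finset.add_sum_erase _ _ (mem_univ i)]
  rw [h, h x, Function.update_self]
  have : ∑ j ∈ univ.erase i, (f j : ℝ) * Function.update x i t j =
      ∑ j ∈ univ.erase i, (f j : ℝ) * x j := by
    refine sum_congr rfl fun j hj => ?_
    rw [Function.update_of_ne (Finset.ne_of_mem_erase hj)]
  rw [this]; ring

theorem exists_mid (A B : List ℝ) (h : ∀ a ∈ A, ∀ b ∈ B, a ≤ b) :
    ∃ t, (∀ a ∈ A, a ≤ t) ∧ ∀ b ∈ B, t ≤ b := by
  induction A with
  | nil =>
    induction B with
    | nil => exact ⟨0, by simp, by simp⟩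
    | cons b B ih =>
      obtain ⟨t, -, ht⟩ := ih (by simp)
      refine ⟨min t b, by simp, ?_⟩
      intro c hc
      rcases List.mem_cons.1 hc with rfl | hc
      · exact min_le_right _ _
      · exact (min_le_left _ _).trans (ht c hc)
  | cons a A ih =>
    obtain ⟨t, h1, h2⟩ := ih fun a' ha' b hb => h a' (by simp [ha']) b hb
    refine ⟨max t a, ?_, ?_⟩
    · intro c hc
      rcases List.mem_cons.1 hc with rfl | hc
      · exact le_max_right _ _
      · exact (h1 c hc).trans (le_max_left _ _)
    · intro b hb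
      exact max_le (h2 b hb) (h a (by simp) b hb)

/-- the pair of a lower and an upper bound -/
def Pr (n : ℕ) (x : Fin 16 → ℝ) (l u : List ℕ) : Prop :=
  0 ≤ (64 - (u.getD n 64 : ℝ)) * ev (fn l) x + ((l.getD n 64 : ℝ) - 64) * ev (fn u) x

theorem pair_sound {n : ℕ} {x : Fin 16 → ℝ} {F : List ℕ} (hF : Cx n x F)
    (hn : n < 16) {l u : List ℕ} (hl : okf (n + 1) l = true) (hu : okf (n + 1) u = true)
    (hl' : 65 ≤ l.getD n 64) (hu' : u.getD n 64 ≤ 63) {p : ℕ × List (ℕ × ℕ)}
    (h : cmb F p (Nat.add (Nat.mul (Nat.sub 64 (u.getD n 64)) (pkf l))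
      (Nat.mul (Nat.sub (l.getD n 64) 64) (pkf u))) = true) : Pr n x l u := by
  have hr := ((pkf_rp ((okf_len hl).trans (by omega))).mul (Nat.sub 64 (u.getD n 64))).add
    ((pkf_rp ((okf_len hu).trans (by omega))).mul (Nat.sub (l.getD n 64) 64))
  have e1 : ((Nat.sub 64 (u.getD n 64) : ℕ) : ℤ) = 64 - (u.getD n 64 : ℤ) := by
    change ((64 - u.getD n 64 : ℕ) : ℤ) = _
    rw [Nat.cast_sub (by omega)]; rfl
  have e2 : ((Nat.sub (l.getD n 64) 64 : ℕ) : ℤ) = (l.getD n 64 : ℤ) - 64 := by
    change ((l.getD n 64 - 64 : ℕ) : ℤ) = _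
    rw [Nat.cast_sub (by omega)]; rfl
  rw [e1, e2] at hr
  have := cmb_sound hF ?_ hr h
  · rw [ev_add, ev_smul, ev_smul] at this
    push_cast at this
    exact this
  · intro i
    have h1 := okf_sm hl i
    have h2 := okf_sm hu i
    have h3 := okf_sm hl ⟨n, hn⟩
    have h4 := okf_sm hu ⟨n, hn⟩
    have h5 : fn l ⟨n, hn⟩ = (l.getD n 64 : ℤ) - 64 := rfl
    have h6 : fn u ⟨n, hn⟩ = (u.getD n 64 : ℤ) - 64 := rfl
    rw [h5] at h3
    rw [h6, abs_sub_comm] at h4
    simp only [Pi.add_apply, Pi.smul_apply, smul_eq_mul]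
    have h7 : |(64 - (u.getD n 64 : ℤ)) * fn l i| ≤ 1000 * 1000 := by
      rw [abs_mul]; exact mul_le_mul h4 h1 (abs_nonneg _) (by norm_num)
    have h8 : |((l.getD n 64 : ℤ) - 64) * fn u i| ≤ 1000 * 1000 := by
      rw [abs_mul]; exact mul_le_mul h3 h2 (abs_nonneg _) (by norm_num)
    have h9 := abs_add_le ((64 - (u.getD n 64 : ℤ)) * fn l i) (((l.getD n 64 : ℤ) - 64) * fn u i)
    linarith

theorem pairOK_sound {n : ℕ} {x : Fin 16 → ℝ} {F : List ℕ} (hF : Cx n x F)
    (hn : n < 16) {l : List ℕ} (hl : okf (n + 1) l = true) (hl' : 65 ≤ l.getD n 64) :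
    ∀ (U : List (List ℕ)) (ps ps' : List (ℕ × List (ℕ × ℕ))),
    (∀ u ∈ U, okf (n + 1) u = true ∧ u.getD n 64 ≤ 63) →
    pairOK F n l U ps = some ps' → ∀ u ∈ U, Pr n x l u := by
  intro U
  induction U with
  | nil => intro ps ps' _ _ u hu; simp at hu
  | cons a U ih =>
    intro ps ps' hU h
    rcases ps with _ | ⟨p, ps⟩
    · simp [pairOK] at h
    · rw [pairOK] at h
      by_cases hc : cmb F p (Nat.add (Nat.mul (Nat.sub 64 (a.getD n 64)) (pkf l))
          (Nat.mul (Nat.sub (l.getD n 64) 64) (pkf a))) = true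
      · rw [hc, cond_true] at h
        intro u hu
        rcases List.mem_cons.1 hu with rfl | hu
        · exact pair_sound hF hn hl (hU u (by simp)).1 hl' (hU u (by simp)).2 hc
        · exact ih ps ps' (fun u hu => hU u (by simp [hu])) h u hu
      · rw [Bool.eq_false_iff.2 hc, cond_false] at h
        simp at h

theorem pairsOK_sound {n : ℕ} {x : Fin 16 → ℝ} {F : List ℕ} (hF : Cx n x F)
    (hn : n < 16) {U : List (List ℕ)} (hU : ∀ u ∈ U, okf (n + 1) u = true ∧ u.getD n 64 ≤ 63) :
    ∀ (L : List (List ℕ)) (ps : List (ℕ × List (ℕ × ℕ))),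
    (∀ l ∈ L, okf (n + 1) l = true ∧ 65 ≤ l.getD n 64) →
    pairsOK F n U L ps = true → ∀ l ∈ L, ∀ u ∈ U, Pr n x l u := by
  intro L
  induction L with
  | nil => intro ps _ _ l hl; simp at hl
  | cons a L ih =>
    intro ps hL h
    rw [pairsOK] at h
    rcases hp : pairOK F n a U ps with _ | ps'
    · rw [hp] at h; simp at h
    · rw [hp] at h
      intro l hl
      rcases List.mem_cons.1 hl with rfl | hl
      · exact pairOK_sound hF hn (hL l (by simp)).1 (hL l (by simp)).2 U ps ps' hU hp
      · exact ih ps' (fun l hl => hL l (by simp [hl])) h l hl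

theorem Cx.app {n : ℕ} {x : Fin 16 → ℝ} {F L : List ℕ} (hF : Cx n x F) (hL : Cx n x L) :
    Cx n x (app F L) := by
  rw [app_eq]
  intro z hz
  rcases List.mem_append.1 hz with hz | hz
  · exact hF z hz
  · exact hL z hz

theorem Cx.one {n : ℕ} {x : Fin 16 → ℝ} {z : ℕ} {f : Fin 16 → ℤ} (h : Ok n x f) (h' : Rp z f) :
    Cx n x [z] := by
  intro w hw
  rw [List.mem_singleton.1 hw]
  exact ⟨f, h, h'⟩

theorem chk_sound {H : List (List (List ℤ))} {G : List (List (List ℤ × List ℤ))}
    (hH : ∀ D ∈ H, ∀ h ∈ D, okL 9 h = true) (hG : ∀ D ∈ G, ∀ g ∈ D, okG g = true) (C : Cert) :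
    ∀ (n : ℕ) (x : Fin 16 → ℝ) (F : List ℕ), 9 ≤ n → n ≤ 16 →
    Cx n x F → (∀ D ∈ H, ∃ h ∈ D, 0 ≤ ev (fz h) x) → chk H G C n F = true →
    ∃ (y : Fin 16 → ℝ) (q : ℕ → ℝ), (∀ i : Fin 16, (i : ℕ) < 9 → y i = x i) ∧
      ∀ D ∈ G, ∃ g ∈ D, 0 ≤ evg g y q := by
  induction C with
  | leaf qs gs =>
    intro n x F h9 h16 hF _ h
    simp only [chk, Bool.and_eq_true, List.all_eq_true] at h
    exact ⟨x, _, fun _ _ => rfl, leafOK_sound hF (Nat.eq_of_beq_eq_true h.1.1)
      (fun s hs => ⟨(okf_len (h.1.2 s hs)).trans h16, okf_sm (h.1.2 s hs)⟩) G gs hG h.2⟩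
  | split f a b iha ihb =>
    intro n x F h9 h16 hF hh h
    simp only [chk, Bool.and_eq_true] at h
    obtain ⟨⟨h1, h2⟩, h3⟩ := h
    have hz := fn_zero (okf_len h1)
    have hs := okf_sm h1
    have hp := pkf_rp ((okf_len h1).trans h16)
    rcases le_total 0 (ev (fn f) x) with h0 | h0
    · exact iha n x _ h9 h16 (hF.app (Cx.one ⟨h0, hs, hz⟩ hp)) hh h2
    · refine ihb n x _ h9 h16 (hF.app (Cx.one (f := -(fn f)) ⟨by rw [ev_neg]; linarith, fun i => by
        rw [Pi.neg_apply, abs_neg]; exact hs i, fun i hi => by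
        rw [Pi.neg_apply, hz i hi, neg_zero]⟩ (hp.neg (pkf_lt f)))) hh h3
  | use k i us a iha =>
    intro n x F h9 h16 hF hh h
    rw [chk] at h
    rcases hk : H[k]? with _ | D
    · rw [hk] at h; simp at h
    · rw [hk] at h
      simp only at h
      rcases hi : D[i]? with _ | h'
      · rw [hi] at h; simp at h
      · rw [hi] at h
        simp only [Bool.and_eq_true] at h
        have hD : D ∈ H := List.mem_of_getElem? hk
        have hm : h' ∈ D := List.mem_of_getElem? hi
        have hok := hH D hD h' hm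
        have h1 := useOK_sound hF hok i D 0 us (hH D hD) (by
          intro t h'' ht hti
          rw [zero_add] at hti
          subst hti
          rw [hi] at ht
          exact (Option.some.inj ht).symm) h.1
        obtain ⟨h2, h3, h4⟩ := hh D hD
        exact iha n x _ h9 h16 (hF.app (Cx.one ⟨h4.trans (h1 h2 h3), okL_sm hok,
          fz_zero ((okL_len hok).trans h9)⟩ (pkz_rp (by norm_num) hok))) hh h.2
  | intro L U ps a iha =>
    intro n x F h9 h16 hF hh h
    simp only [chk, Bool.and_eq_true, List.all_eq_true] at h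
    obtain ⟨⟨⟨⟨hn, hL⟩, hU⟩, hp⟩, h⟩ := h
    have hn' : n < 16 := Nat.le_of_ble_eq_true hn
    have hL' : ∀ l ∈ L, okf (n + 1) l = true ∧ 65 ≤ l.getD n 64 := fun l hl =>
      ⟨(hL l hl).1, Nat.le_of_ble_eq_true (hL l hl).2⟩
    have hU' : ∀ l ∈ U, okf (n + 1) l = true ∧ l.getD n 64 ≤ 63 := fun l hl =>
      ⟨(hU l hl).1, Nat.le_of_ble_eq_true (hU l hl).2⟩
    have hpr := pairsOK_sound hF hn' hU' L ps hL' hp
    let i0 : Fin 16 := ⟨n, hn'⟩
    obtain ⟨t, ht1, ht2⟩ := exists_mid
      (L.map fun l => x i0 - ev (fn l) x / ((l.getD n 64 : ℝ) - 64))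
      (U.map fun u => x i0 - ev (fn u) x / ((u.getD n 64 : ℝ) - 64)) (by
        intro a ha b hb
        obtain ⟨l, hl, rfl⟩ := List.mem_map.1 ha
        obtain ⟨u, hu, rfl⟩ := List.mem_map.1 hb
        have h1 : (0 : ℝ) < (l.getD n 64 : ℝ) - 64 := by
          have : ((65 : ℕ) : ℝ) ≤ (l.getD n 64 : ℝ) := by exact_mod_cast (hL' l hl).2
          push_cast at this; linarith
        have h2 : (u.getD n 64 : ℝ) - 64 < 0 := by
          have : (u.getD n 64 : ℝ) ≤ ((63 : ℕ) : ℝ) := by exact_mod_cast (hU' u hu).2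
          push_cast at this; linarith
        have h3 := hpr l hl u hu
        unfold Pr at h3
        have h4 : ev (fn u) x / ((u.getD n 64 : ℝ) - 64) ≤
            ev (fn l) x / ((l.getD n 64 : ℝ) - 64) := by
          rw [div_le_iff_of_neg h2, div_mul_eq_mul_div, div_le_iff₀ h1]
          linarith
        linarith)
    set x' := Function.update x i0 t with hx'
    have hx'9 : ∀ i : Fin 16, (i : ℕ) < 9 → x' i = x i := by
      intro i hi
      rw [hx', Function.update_of_ne]
      intro h
      have := congrArg Fin.val h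
      change (i : ℕ) = n at this
      omega
    have hev9 : ∀ h : List ℤ, okL 9 h = true → ev (fz h) x' = ev (fz h) x := by
      intro h hh
      rw [hx', ev_update, fz_zero (okL_len hh) i0 h9]
      simp
    have hc1 : Cx (n + 1) x' F := by
      intro z hz
      obtain ⟨f, hf, hr⟩ := hF z hz
      refine ⟨f, ⟨?_, hf.sm, fun i hi => hf.z i (by omega)⟩, hr⟩
      rw [hx', ev_update, hf.z i0 le_rfl]
      simpa using hf.nn
    have hc2 : Cx (n + 1) x' (L.map pkf ++ U.map pkf) := by
      intro z hz
      rcases List.mem_append.1 hz with hg | hg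
      · obtain ⟨l, hl, rfl⟩ := List.mem_map.1 hg
        refine ⟨fn l, ⟨?_, okf_sm (hL' l hl).1, fn_zero (okf_len (hL' l hl).1)⟩,
          pkf_rp ((okf_len (hL' l hl).1).trans (by omega))⟩
        rw [hx', ev_update]
        have h1 : (0 : ℝ) < (l.getD n 64 : ℝ) - 64 := by
          have : ((65 : ℕ) : ℝ) ≤ (l.getD n 64 : ℝ) := by exact_mod_cast (hL' l hl).2
          push_cast at this; linarith
        have h2 := ht1 _ (List.mem_map.2 ⟨l, hl, rfl⟩)
        have h3 : ((fn l i0 : ℤ) : ℝ) = (l.getD n 64 : ℝ) - 64 := by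
          change (((l.getD n 64 : ℤ) - 64 : ℤ) : ℝ) = _
          push_cast; ring
        rw [h3]
        have h4 : -(ev (fn l) x) ≤ (t - x i0) * ((l.getD n 64 : ℝ) - 64) := by
          rw [← div_le_iff₀ h1, neg_div]; linarith
        linarith
      · obtain ⟨l, hl, rfl⟩ := List.mem_map.1 hg
        refine ⟨fn l, ⟨?_, okf_sm (hU' l hl).1, fn_zero (okf_len (hU' l hl).1)⟩,
          pkf_rp ((okf_len (hU' l hl).1).trans (by omega))⟩
        rw [hx', ev_update]
        have h1 : (l.getD n 64 : ℝ) - 64 < 0 := by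
          have : (l.getD n 64 : ℝ) ≤ ((63 : ℕ) : ℝ) := by exact_mod_cast (hU' l hl).2
          push_cast at this; linarith
        have h2 := ht2 _ (List.mem_map.2 ⟨l, hl, rfl⟩)
        have h3 : ((fn l i0 : ℤ) : ℝ) = (l.getD n 64 : ℝ) - 64 := by
          change (((l.getD n 64 : ℤ) - 64 : ℤ) : ℝ) = _
          push_cast; ring
        rw [h3]
        have h4 : -(ev (fn l) x) ≤ (t - x i0) * ((l.getD n 64 : ℝ) - 64) := by
          rw [← le_div_iff_of_neg h1, neg_div]; linarith
        linarith
    obtain ⟨y, q, hy, hq⟩ := iha (n + 1) x' _ (by omega) (by omega) (hc1.app hc2) (by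
      intro D hD
      obtain ⟨h', h1, h2⟩ := hh D hD
      exact ⟨h', h1, by rw [hev9 h' (hH D hD h' h1)]; exact h2⟩) h
    exact ⟨y, q, fun i hi => (hy i hi).trans (hx'9 i hi), hq⟩

end Pool.Agent.Imp3
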