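import Pool.Agent.Lib.MP_009461_co.Cone.Parse

/-!
# Extension of the masses of the patterns to a further point

The statement `Ext E N` follows from a correct certificate.
-/

namespace Pool.Agent.Imp3

open Finset

/-- the conditions of the code `e` on the masses `a` of the patterns -/
def sat (e : ℕ) (a : ℕ → ℝ) : Prop :=
  ∀ D ∈ rgn e, ∃ f ∈ D, 0 ≤ ∑ P ∈ range 8, ((f P : ℤ) : ℝ) * a P

/-- masses of the patterns on the face -/
noncomputable def fac (i j : ℕ) (m q : ℕ → ℝ) (P : ℕ) : ℝ :=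
  ∑ T ∈ range 8, ((if pt i j T = P then m T - q T else 0) +
    (if pt i j T + 4 = P then q T else 0))

/-- weight of a set of points of the triple and the further point `3` -/
noncomputable def wt (m : ℕ → ℝ) (v : ℝ) (K : ℕ) : ℝ :=
  ∑ T ∈ range 8, ((wK K T : ℤ) : ℝ) * m T + ((bi (K.testBit 3) : ℤ) : ℝ) * v

/-- Extension to a further point of weight `v` with neighbours `N`. -/
def Ext (E N : ℕ) : Prop := ∀ (m : ℕ → ℝ) (v : ℝ), (∀ T, T < 8 → 0 ≤ m T) →
  (∀ T, T < 8 → ind E T = false → m T = 0) → 0 ≤ v →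
  (∀ K, K < 16 → K ≠ 0 → clq E N K = true → 3 * wt m v K ≤ 2 * ∑ T ∈ range 8, m T) →
  sat E m →
  ∃ q : ℕ → ℝ, (∀ T, T < 8 → 0 ≤ q T ∧ q T ≤ m T) ∧ ∑ T ∈ range 8, q T = v ∧
    (∀ T, T < 8 → T &&& N ≠ 0 → q T = 0) ∧ sat (fe E N 0 1) (fac 0 1 m q) ∧
    sat (fe E N 0 2) (fac 0 2 m q) ∧ sat (fe E N 1 2) (fac 1 2 m q)

theorem at1_eq (Q P : ℕ) : at1 Q P = if P = Q then 1 else 0 := by
  unfold at1 bi
  by_cases h : P = Q
  · rw [if_pos h, h, show Nat.beq Q Q = true from Nat.beq_refl Q, cond_true]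
  · have : Nat.beq P Q = false := by
      rw [Bool.eq_false_iff]
      exact fun hb => h (Nat.eq_of_beq_eq_true hb)
    rw [if_neg h, this, cond_false]

theorem ev_nil (x : Fin 16 → ℝ) : ev (fz []) x = 0 := by simp [ev, fz]

/-- values of a point of `ℝ¹⁶` -/
noncomputable def vl (x : Fin 16 → ℝ) (T : ℕ) : ℝ := if h : T < 16 then x ⟨T, h⟩ else 0

theorem ev_tb (f : ℕ → ℤ) (x : Fin 16 → ℝ) :
    ev (fz (tb f)) x = ∑ T ∈ range 8, ((f T : ℤ) : ℝ) * vl x T := by
  simp [ev, fz, tb, Fin.sum_univ_succ, sum_range_succ, vl]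
  ring

theorem ev_tb1 (f : ℕ → ℤ) (c : ℤ) (x : Fin 16 → ℝ) :
    ev (fz (tb f ++ [c])) x = ∑ T ∈ range 8, ((f T : ℤ) : ℝ) * vl x T + c * vl x 8 := by
  simp [ev, fz, tb, Fin.sum_univ_succ, sum_range_succ, vl]
  ring

theorem ok_hyp : ∀ E, E < 8 → ∀ D ∈ hyp E, ∀ h ∈ D, okL 9 h = true := by decide +kernel

theorem ok_goal : ∀ E, E < 8 → ∀ N, N < 8 → ∀ D ∈ goal E N, ∀ g ∈ D, okG g = true := by
  decide +kernel

theorem ok_ctx0 : ∀ E, E < 8 → ∀ N, N < 8 → ∀ h ∈ ctx0 E N, okL 9 h = true := by decide +kernel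

theorem pt_lt (i j T : ℕ) : pt i j T < 4 := by
  unfold pt
  cases T.testBit i <;> cases T.testBit j <;> decide

theorem sum_fac (i j : ℕ) (m q : ℕ → ℝ) (f : ℕ → ℤ) :
    ∑ P ∈ range 8, ((f P : ℤ) : ℝ) * fac i j m q P =
      ∑ T ∈ range 8, (((f (pt i j T) : ℤ) : ℝ) * (m T - q T) +
        ((f (pt i j T + 4) : ℤ) : ℝ) * q T) := by
  unfold fac
  simp only [mul_sum]
  rw [sum_comm]
  refine sum_congr rfl fun T _ => ?_
  simp only [mul_add, sum_add_distrib, mul_ite, mul_zero]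
  have h := pt_lt i j T
  rw [sum_ite_eq, sum_ite_eq, if_pos (mem_range.2 (by omega)), if_pos (mem_range.2 (by omega))]

theorem ext_of_good {E N : ℕ} (hE : E < 8) (hN : N < 8) {l : List ℕ} (h : good E N l = true) :
    Ext E N := by
  intro m v hm hi hv hc hs
  obtain ⟨C, hC⟩ := good_chk h
  set x : Fin 16 → ℝ := fun i => if (i : ℕ) < 8 then m i else if (i : ℕ) = 8 then v else 0 with hx
  have vx : ∀ T, T < 8 → vl x T = m T := by
    intro T hT
    have h16 : T < 16 := by omega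
    unfold vl
    rw [dif_pos h16]
    change (if T < 8 then m T else if T = 8 then v else 0) = m T
    rw [if_pos hT]
  have vx8 : vl x 8 = v := by
    unfold vl
    rw [dif_pos (by norm_num)]
    change (if 8 < 8 then m 8 else if 8 = 8 then v else 0) = v
    simp
  -- masked forms
  have mask : ∀ f : ℕ → ℤ, ∑ T ∈ range 8, (((cond (ind E T) (f T) 0 : ℤ) : ℤ) : ℝ) * m T =
      ∑ T ∈ range 8, ((f T : ℤ) : ℝ) * m T := by
    intro f
    refine sum_congr rfl fun T hT => ?_
    by_cases hT' : ind E T = true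
    · rw [hT', cond_true]
    · have := hi T (mem_range.1 hT) (by simpa using hT')
      rw [this]; ring
  have evm : ∀ f : ℕ → ℤ, ev (fz (tbm E f)) x = ∑ T ∈ range 8, ((f T : ℤ) : ℝ) * m T := by
    intro f
    unfold tbm
    rw [ev_tb, ← mask f]
    exact sum_congr rfl fun T hT => by rw [vx T (mem_range.1 hT)]
  have hcx : Cx 9 x ((ctx0 E N).map pkz) := by
    intro z hz
    obtain ⟨h', hh', rfl⟩ := List.mem_map.1 hz
    have hok := ok_ctx0 E hE N hN h' hh'
    refine ⟨fz h', ⟨?_, okL_sm hok, fz_zero (okL_len hok)⟩, pkz_rp (by norm_num) hok⟩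
    unfold ctx0 at hh'
    rcases List.mem_append.1 hh' with hh' | hh'
    · rcases List.mem_append.1 hh' with hh' | hh'
      · obtain ⟨T, hT, rfl⟩ := List.mem_map.1 hh'
        rw [evm]
        refine sum_nonneg fun P hP => mul_nonneg ?_ (hm P (mem_range.1 hP))
        rw [at1_eq]
        split_ifs <;> simp
      · rw [List.mem_singleton.1 hh']
        have e : ([0, 0, 0, 0, 0, 0, 0, 0, 1] : List ℤ) = tb (fun _ => 0) ++ [1] := rfl
        rw [e, ev_tb1, vx8]
        simpa using hv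
    · obtain ⟨K, hK, rfl⟩ := List.mem_map.1 hh'
      rw [List.mem_filter, List.mem_range, Bool.and_eq_true] at hK
      obtain ⟨hK1, hK2, hK3⟩ := hK
      have hK0 : K ≠ 0 := by
        rintro rfl
        exact absurd hK2 (by decide)
      have := hc K hK1 hK0 hK3
      unfold tbm
      rw [ev_tb1, vx8]
      have e1 : ∑ T ∈ range 8, (((cond (ind E T) (2 - 3 * wK K T) 0 : ℤ) : ℤ) : ℝ) * vl x T =
          ∑ T ∈ range 8, (((2 - 3 * wK K T : ℤ) : ℤ) : ℝ) * m T := by
        rw [← mask fun T => 2 - 3 * wK K T]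
        exact sum_congr rfl fun T hT => by rw [vx T (mem_range.1 hT)]
      rw [e1]
      unfold wt at this
      have e2 : ∑ T ∈ range 8, (((2 - 3 * wK K T : ℤ) : ℤ) : ℝ) * m T =
          2 * ∑ T ∈ range 8, m T - 3 * ∑ T ∈ range 8, ((wK K T : ℤ) : ℝ) * m T := by
        rw [mul_sum, mul_sum, ← sum_sub_distrib]
        refine sum_congr rfl fun T _ => ?_
        push_cast
        ring
      rw [e2]
      push_cast
      linarith
  have hhyp : ∀ D ∈ hyp E, ∃ h ∈ D, 0 ≤ ev (fz h) x := by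
    intro D hD
    obtain ⟨D', hD', rfl⟩ := List.mem_map.1 hD
    obtain ⟨f, hf, h0⟩ := hs D' hD'
    exact ⟨tbm E f, List.mem_map.2 ⟨f, hf, rfl⟩, by rw [evm]; exact h0⟩
  obtain ⟨y, q, hy, hq⟩ := chk_sound (ok_hyp E hE) (ok_goal E hE N hN) C 9 x _ le_rfl (by norm_num)
    hcx hhyp hC
  have vy : ∀ T, T < 8 → vl y T = m T := by
    intro T hT
    rw [← vx T hT]
    unfold vl
    rw [dif_pos (by omega), dif_pos (by omega)]
    exact hy _ (by change T < 9; omega)
  have vy8 : vl y 8 = v := by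
    rw [← vx8]
    unfold vl
    rw [dif_pos (by omega), dif_pos (by omega)]
    exact hy _ (by norm_num)
  have evy : ∀ f : ℕ → ℤ, ev (fz (tbm E f)) y = ∑ T ∈ range 8, ((f T : ℤ) : ℝ) * m T := by
    intro f
    unfold tbm
    rw [ev_tb, ← mask f]
    exact sum_congr rfl fun T hT => by rw [vy T (mem_range.1 hT)]
  have tbq : ∀ f : ℕ → ℤ, ∑ T ∈ range 8, (((tb f).getD T 0 : ℤ) : ℝ) * q T =
      ∑ T ∈ range 8, ((f T : ℤ) : ℝ) * q T := by
    intro f
    simp [tb, sum_range_succ]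
  have atq : ∀ T, T < 8 → ∑ P ∈ range 8, ((at1 T P : ℤ) : ℝ) * q P = q T := by
    intro T hT
    have : ∀ P ∈ range 8, ((at1 T P : ℤ) : ℝ) * q P = if P = T then q P else 0 := by
      intro P _
      rw [at1_eq]
      split_ifs <;> simp
    rw [sum_congr rfl this, sum_ite_eq', if_pos (mem_range.2 hT)]
  have atm : ∀ T, T < 8 → ∑ P ∈ range 8, ((at1 T P : ℤ) : ℝ) * m P = m T := by
    intro T hT
    have : ∀ P ∈ range 8, ((at1 T P : ℤ) : ℝ) * m P = if P = T then m P else 0 := by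
      intro P _
      rw [at1_eq]
      split_ifs <;> simp
    rw [sum_congr rfl this, sum_ite_eq', if_pos (mem_range.2 hT)]
  have negq : ∀ T, T < 8 → ∑ P ∈ range 8, (((-at1 T P : ℤ) : ℤ) : ℝ) * q P = - q T := by
    intro T hT
    rw [← atq T hT, ← sum_neg_distrib]
    exact sum_congr rfl fun P _ => by push_cast; ring
  have g1 : ∀ T, T < 8 → 0 ≤ q T := by
    intro T hT
    obtain ⟨g, hg, h0⟩ := hq [([], tb (at1 T))] (by
      unfold goal
      simp only [List.mem_append, List.mem_map, List.mem_range]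
      exact Or.inl (Or.inl (Or.inl (Or.inl (Or.inl (Or.inl (Or.inl ⟨T, hT, rfl⟩)))))))
    rw [List.mem_singleton.1 hg, evg, ev_nil, tbq, atq T hT] at h0
    linarith
  have g2 : ∀ T, T < 8 → q T ≤ m T := by
    intro T hT
    obtain ⟨g, hg, h0⟩ := hq [(tbm E (at1 T), tb fun P => - at1 T P)] (by
      unfold goal
      simp only [List.mem_append, List.mem_map, List.mem_range]
      exact Or.inl (Or.inl (Or.inl (Or.inl (Or.inl (Or.inl (Or.inr ⟨T, hT, rfl⟩)))))))
    rw [List.mem_singleton.1 hg, evg, evy, tbq, negq T hT, atm T hT] at h0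
    linarith
  have e8 : ∀ c : ℤ, ev (fz (tb (fun _ => 0) ++ [c])) y = c * v := by
    intro c
    rw [ev_tb1, vy8]
    simp
  have g3 : v ≤ ∑ T ∈ range 8, q T := by
    obtain ⟨g, hg, h0⟩ := hq [(tb (fun _ => 0) ++ [-1], tb fun _ => 1)] (by
      unfold goal
      simp only [List.mem_append]
      exact Or.inl (Or.inl (Or.inl (Or.inl (Or.inl (Or.inr (by
        exact List.mem_singleton.2 rfl)))))))
    rw [List.mem_singleton.1 hg, evg, e8, tbq] at h0
    simp only [Int.cast_one, one_mul] at h0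
    push_cast at h0
    linarith
  have g4 : ∑ T ∈ range 8, q T ≤ v := by
    obtain ⟨g, hg, h0⟩ := hq [(tb (fun _ => 0) ++ [1], tb fun _ => -1)] (by
      unfold goal
      simp only [List.mem_append]
      exact Or.inl (Or.inl (Or.inl (Or.inl (Or.inr (by
        exact List.mem_singleton.2 rfl))))))
    rw [List.mem_singleton.1 hg, evg, e8, tbq] at h0
    have e : ∑ T ∈ range 8, (((-1 : ℤ) : ℤ) : ℝ) * q T = - ∑ T ∈ range 8, q T := by
      rw [← sum_neg_distrib]
      exact sum_congr rfl fun P _ => by push_cast; ring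
    rw [e] at h0
    push_cast at h0
    linarith
  have g5 : ∀ T, T < 8 → T &&& N ≠ 0 → q T = 0 := by
    intro T hT hTN
    obtain ⟨g, hg, h0⟩ := hq [([], tb fun P => - at1 T P)] (by
      unfold goal
      simp only [List.mem_append]
      refine Or.inl (Or.inl (Or.inl (Or.inr (List.mem_map.2 ⟨T, ?_, rfl⟩))))
      rw [List.mem_filter]
      refine ⟨List.mem_range.2 hT, ?_⟩
      have : Nat.beq (T &&& N) 0 = false := by
        rw [Bool.eq_false_iff]
        exact fun hb => hTN (Nat.eq_of_beq_eq_true hb)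
      rw [this]; rfl)
    rw [List.mem_singleton.1 hg, evg, ev_nil, tbq, negq T hT] at h0
    have := g1 T hT
    linarith
  have g6 : ∀ i j, (∀ D ∈ gface E N i j, D ∈ goal E N) → sat (fe E N i j) (fac i j m q) := by
    intro i j hsub D hD
    obtain ⟨g, hg, h0⟩ := hq _ (hsub _ (List.mem_map.2 ⟨D, hD, rfl⟩))
    obtain ⟨f, hf, rfl⟩ := List.mem_map.1 hg
    refine ⟨f, hf, ?_⟩
    rw [evg, evy, tbq] at h0
    rw [sum_fac]
    refine h0.trans_eq ?_
    rw [← sum_add_distrib]
    refine sum_congr rfl fun T _ => ?_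
    push_cast
    ring
  refine ⟨q, fun T hT => ⟨g1 T hT, g2 T hT⟩, le_antisymm g4 g3, g5, g6 0 1 ?_, g6 0 2 ?_,
    g6 1 2 ?_⟩
  · intro D hD
    unfold goal
    simp only [List.mem_append]
    exact Or.inl (Or.inl (Or.inr hD))
  · intro D hD
    unfold goal
    simp only [List.mem_append]
    exact Or.inl (Or.inr hD)
  · intro D hD
    unfold goal
    simp only [List.mem_append]
    exact Or.inr hD

end Pool.Agent.Imp3
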