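import Pool.Agent.Lib.MP_009461_co.Cone.Sys

/-!
# Reading certificates

The readers take a continuation; they are written with recursors, for the evaluation in the kernel.
-/

namespace Pool.Agent.Imp3

/-- digits of a number -/
noncomputable def dig (k n : ℕ) (tl : List ℕ) : List ℕ :=
  Nat.rec (motive := fun _ => ℕ → List ℕ) (fun _ => tl)
    (fun _ ih n => List.cons (Nat.mod n 128) (ih (Nat.div n 128))) k n

/-- the stream of digits -/
noncomputable def stream (l : List ℕ) : List ℕ :=
  List.rec (motive := fun _ => List ℕ) [] (fun c _ tl => dig 200 c tl) l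

/-- a reader -/
abbrev Rd (α : Type) : Type := List ℕ → (α → List ℕ → Bool) → Bool

/-- a number -/
noncomputable def pVal : Rd ℕ := fun s k =>
  List.rec (motive := fun _ => Bool) false
    (fun d s _ => Bool.rec (motive := fun _ => Bool) (k d s)
      (List.rec (motive := fun _ => Bool) false
        (fun h s _ => List.rec (motive := fun _ => Bool) false
          (fun l s _ => k (Nat.add (Nat.mul 128 h) l) s) s) s) (Nat.ble 127 d)) s

/-- repetition -/
noncomputable def rep {α : Type} (p : Rd α) (n : ℕ) : Rd (List α) := fun s k =>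
  Nat.rec (motive := fun _ => List ℕ → (List α → List ℕ → Bool) → Bool) (fun s k => k [] s)
    (fun _ ih s k => p s fun a s => ih s fun l s => k (a :: l) s) n s k

/-- a form -/
noncomputable def pForm : Rd (List ℕ) := fun s k => pVal s fun n s => rep pVal n s k

/-- a pair of numbers -/
noncomputable def pPair : Rd (ℕ × ℕ) := fun s k => pVal s fun a s => pVal s fun b s => k (a, b) s

/-- a combination -/
noncomputable def pComb : Rd (ℕ × List (ℕ × ℕ)) := fun s k =>
  pVal s fun c s => pVal s fun n s => rep pPair n s fun l s => k (c, l) s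

/-- a combination with an alternative -/
noncomputable def pGoal : Rd (ℕ × ℕ × List (ℕ × ℕ)) := fun s k =>
  pVal s fun a s => pComb s fun c s => k (a, c) s

/-- the number of alternatives, minus one -/
noncomputable def nalt (H : List (List (List ℤ))) (i : ℕ) : ℕ := Nat.pred (H.getD i []).length

/-- a certificate; `H` are the hypotheses and `ng` is the number of goals -/
noncomputable def pCert (H : List (List (List ℤ))) (ng n : ℕ) : Rd Cert := fun s k =>
  Nat.rec (motive := fun _ => List ℕ → (Cert → List ℕ → Bool) → Bool) (fun _ _ => false)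
    (fun _ ih s k => pVal s fun d s =>
      Nat.rec (motive := fun _ => Bool)
        (pForm s fun f s => ih s fun a s => ih s fun b s => k (.split f a b) s)
        (fun d _ => Nat.rec (motive := fun _ => Bool)
          (pVal s fun i s => pVal s fun j s => rep pComb (nalt H i) s fun us s =>
            ih s fun a s => k (.use i j us a) s)
          (fun d _ => Nat.rec (motive := fun _ => Bool)
            (pVal s fun nL s => rep pForm nL s fun L s => pVal s fun nU s =>
              rep pForm nU s fun U s => rep pComb (Nat.mul nL nU) s fun ps s =>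
                ih s fun a s => k (.intro L U ps a) s)
            (fun _ _ => rep pForm 8 s fun qs s => rep pGoal ng s fun gs s => k (.leaf qs gs) s) d)
          d) d) n s k

/-- the certificate given by the list of numbers is correct -/
noncomputable def good (E N : ℕ) (l : List ℕ) : Bool :=
  pCert (hyp E) (goal E N).length 1000 (stream l) fun C _ =>
    chk (hyp E) (goal E N) C 9 ((ctx0 E N).map pkz)

/-! ### Soundness -/

/-- the reader passes some value to the continuation -/
def Snd {α : Type} (p : Rd α) : Prop := ∀ s k, p s k = true → ∃ a s', k a s' = true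

theorem not_ft : ¬ (false = true) := by decide

theorem snd_pVal : Snd pVal := by
  intro s k h
  rcases s with _ | ⟨d, s⟩
  · exact absurd h not_ft
  · change Bool.rec (motive := fun _ => Bool) (k d s)
      (List.rec (motive := fun _ => Bool) false
        (fun h s _ => List.rec (motive := fun _ => Bool) false
          (fun l s _ => k (Nat.add (Nat.mul 128 h) l) s) s) s) (Nat.ble 127 d) = true at h
    revert h
    cases Nat.ble 127 d
    · intro h; exact ⟨d, s, h⟩
    · intro h
      rcases s with _ | ⟨d', s⟩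
      · exact absurd h not_ft
      · rcases s with _ | ⟨d'', s⟩
        · exact absurd h not_ft
        · exact ⟨_, _, h⟩

theorem snd_rep {α : Type} {p : Rd α} (hp : Snd p) (n : ℕ) : Snd (rep p n) := by
  induction n with
  | zero => intro s k h; exact ⟨_, _, h⟩
  | succ n ih =>
    intro s k h
    change (p s fun a s => rep p n s fun l s => k (a :: l) s) = true at h
    obtain ⟨a, s1, h1⟩ := hp _ _ h
    obtain ⟨l, s2, h2⟩ := ih _ _ h1
    exact ⟨_, _, h2⟩

theorem snd_pForm : Snd pForm := by
  intro s k h
  obtain ⟨n, s1, h1⟩ := snd_pVal _ _ h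
  obtain ⟨l, s2, h2⟩ := snd_rep snd_pVal n _ _ h1
  exact ⟨_, _, h2⟩

theorem snd_pPair : Snd pPair := by
  intro s k h
  obtain ⟨a, s1, h1⟩ := snd_pVal _ _ h
  obtain ⟨b, s2, h2⟩ := snd_pVal _ _ h1
  exact ⟨_, _, h2⟩

theorem snd_pComb : Snd pComb := by
  intro s k h
  obtain ⟨c, s1, h1⟩ := snd_pVal _ _ h
  obtain ⟨n, s2, h2⟩ := snd_pVal _ _ h1
  obtain ⟨l, s3, h3⟩ := snd_rep snd_pPair n _ _ h2
  exact ⟨_, _, h3⟩

theorem snd_pGoal : Snd pGoal := by
  intro s k h
  obtain ⟨c, s1, h1⟩ := snd_pVal _ _ h
  obtain ⟨n, s2, h2⟩ := snd_pComb _ _ h1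
  exact ⟨_, _, h2⟩

theorem snd_pCert (H : List (List (List ℤ))) (ng n : ℕ) : Snd (pCert H ng n) := by
  induction n with
  | zero => intro s k h; exact absurd h not_ft
  | succ n ih =>
    intro s k h
    obtain ⟨d, s1, h1⟩ := snd_pVal _ _ h
    rcases d with _ | d
    · obtain ⟨f, s2, h2⟩ := snd_pForm _ _ h1
      obtain ⟨a, s3, h3⟩ := ih _ _ h2
      obtain ⟨b, s4, h4⟩ := ih _ _ h3
      exact ⟨_, _, h4⟩
    · rcases d with _ | d
      · obtain ⟨i, s2, h2⟩ := snd_pVal _ _ h1
        obtain ⟨j, s3, h3⟩ := snd_pVal _ _ h2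
        obtain ⟨us, s4, h4⟩ := snd_rep snd_pComb _ _ _ h3
        obtain ⟨a, s5, h5⟩ := ih _ _ h4
        exact ⟨_, _, h5⟩
      · rcases d with _ | d
        · obtain ⟨nL, s2, h2⟩ := snd_pVal _ _ h1
          obtain ⟨L, s3, h3⟩ := snd_rep snd_pForm _ _ _ h2
          obtain ⟨nU, s4, h4⟩ := snd_pVal _ _ h3
          obtain ⟨U, s5, h5⟩ := snd_rep snd_pForm _ _ _ h4
          obtain ⟨ps, s6, h6⟩ := snd_rep snd_pComb _ _ _ h5
          obtain ⟨a, s7, h7⟩ := ih _ _ h6
          exact ⟨_, _, h7⟩
        · obtain ⟨qs, s2, h2⟩ := snd_rep snd_pForm _ _ _ h1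
          obtain ⟨gs, s3, h3⟩ := snd_rep snd_pGoal _ _ _ h2
          exact ⟨_, _, h3⟩

theorem good_chk {E N : ℕ} {l : List ℕ} (h : good E N l = true) :
    ∃ C, chk (hyp E) (goal E N) C 9 ((ctx0 E N).map pkz) = true := by
  obtain ⟨C, s, h⟩ := snd_pCert _ _ _ _ _ h
  exact ⟨C, h⟩

end Pool.Agent.Imp3
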