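import Pool.Agent.Lib.MP_009461_co.Cone.Chk

/-!
# The systems of conditions for triples

The pattern of a set on a triple of points is a number `P < 8`. The regions `rgn e` are lists of
disjunctions of linear inequalities on the masses of the patterns.
-/

namespace Pool.Agent.Imp3

/-- `0` or `1` -/
def bi (b : Bool) : ℤ := cond b 1 0

/-- the weight of the point `i` -/
def wf (i P : ℕ) : ℤ := bi (P.testBit i)

/-- the independent sets of a triple whose adjacency is given by the code `E` -/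
def ind (E T : ℕ) : Bool :=
  !((T.testBit 0 && T.testBit 1 && E.testBit 0) || (T.testBit 0 && T.testBit 2 && E.testBit 1) ||
    (T.testBit 1 && T.testBit 2 && E.testBit 2))

/-- the cliques on the triple (code `E`) and a further point `3` with neighbours `N` -/
def clq (E N K : ℕ) : Bool :=
  (!(K.testBit 0 && K.testBit 1) || E.testBit 0) && (!(K.testBit 0 && K.testBit 2) || E.testBit 1) &&
  (!(K.testBit 1 && K.testBit 2) || E.testBit 2) &&
  (!(K.testBit 0 && K.testBit 3) || N.testBit 0) && (!(K.testBit 1 && K.testBit 3) || N.testBit 1) &&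
  (!(K.testBit 2 && K.testBit 3) || N.testBit 2)

/-- the condition on the union of two nonadjacent points -/
def pairC (i j : ℕ) : List (ℕ → ℤ) :=
  [fun P => 1 + 3 * wf i P - 3 * bi (P.testBit i || P.testBit j),
    fun P => 1 + 3 * wf j P - 3 * bi (P.testBit i || P.testBit j)]

/-- the weight of a set of points -/
def wK (K P : ℕ) : ℤ := bi (K.testBit 0) * wf 0 P + bi (K.testBit 1) * wf 1 P +
  bi (K.testBit 2) * wf 2 P

/-- the maximal cliques of a triple -/
def mc : ℕ → List ℕ
  | 0 => [1, 2, 4]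
  | 1 => [3, 4]
  | 2 => [2, 5]
  | 3 => [3, 5]
  | 4 => [1, 6]
  | 5 => [3, 6]
  | 6 => [5, 6]
  | _ => []

/-- the condition on the union of the three points -/
def tripC (e : ℕ) : List (ℕ → ℤ) :=
  (mc e).map fun K P => 1 + 3 * wK K P - 3 * bi (!(Nat.beq P 0))

/-- mass of a pattern -/
def at1 (Q P : ℕ) : ℤ := bi (Nat.beq P Q)

/-- the conditions on the intersection of `x` and `z` outside `y` -/
def dC (x y z a : ℕ) : List (ℕ → ℤ) :=
  [fun P => 1 - 3 * at1 a P, fun P => 3 * wf x P + 3 * wf z P - 3 * wf y P - 1 - 3 * at1 a P]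

/-- the conditions on the part of `y` outside `x` and `z` -/
def oC (x y z b : ℕ) : List (ℕ → ℤ) :=
  [fun P => 3 * at1 b P - 3 * wf y P + 1, fun P => 3 * at1 b P - 1 + 3 * wf x P,
    fun P => 3 * at1 b P - 1 + 3 * wf z P]

/-- the conditions on the intersection -/
def iC : List (ℕ → ℤ) :=
  [fun P => 1 - 3 * at1 7 P, fun P => 3 * (wf 0 P + wf 1 P + wf 2 P) - 3 - 3 * at1 7 P]

/-- the conditions for a triple with the code `e` -/
def rgn (e : ℕ) : List (List (ℕ → ℤ)) :=
  (cond (e.testBit 0) [] [pairC 0 1]) ++ (cond (e.testBit 1) [] [pairC 0 2]) ++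
  (cond (e.testBit 2) [] [pairC 1 2]) ++ (cond (Nat.beq e 7) [] [tripC e]) ++
  (cond (Nat.beq e 0) [dC 1 0 2 6, oC 1 0 2 1, dC 2 1 0 5, oC 2 1 0 2, dC 0 2 1 3, oC 0 2 1 4, iC] [])

/-- the list of the first eight values -/
def tb (f : ℕ → ℤ) : List ℤ := [f 0, f 1, f 2, f 3, f 4, f 5, f 6, f 7]

/-- the list of the first eight values, on independent sets -/
def tbm (E : ℕ) (f : ℕ → ℤ) : List ℤ := tb fun T => cond (ind E T) (f T) 0

/-- hypotheses -/
def hyp (E : ℕ) : List (List (List ℤ)) := (rgn E).map fun D => D.map (tbm E)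

/-- pattern on two points -/
def pt (i j T : ℕ) : ℕ := cond (T.testBit i) 1 0 + cond (T.testBit j) 2 0

/-- code of a face -/
def fe (E N i j : ℕ) : ℕ :=
  cond (E.testBit (i + j - 1)) 1 0 + cond (N.testBit i) 2 0 + cond (N.testBit j) 4 0

/-- goals for a face -/
def gface (E N i j : ℕ) : List (List (List ℤ × List ℤ)) :=
  (rgn (fe E N i j)).map fun D => D.map fun f =>
    (tbm E fun T => f (pt i j T), tb fun T => f (pt i j T + 4) - f (pt i j T))

/-- goals -/
def goal (E N : ℕ) : List (List (List ℤ × List ℤ)) :=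
  ((List.range 8).map fun T => [([], tb (at1 T))]) ++
  ((List.range 8).map fun T => [(tbm E (at1 T), tb fun P => - at1 T P)]) ++
  [[([0, 0, 0, 0, 0, 0, 0, 0, -1], [1, 1, 1, 1, 1, 1, 1, 1])]] ++
  [[([0, 0, 0, 0, 0, 0, 0, 0, 1], [-1, -1, -1, -1, -1, -1, -1, -1])]] ++
  (((List.range 8).filter fun T => !(Nat.beq (T &&& N) 0)).map fun T => [([], tb fun P => - at1 T P)]) ++
  gface E N 0 1 ++ gface E N 0 2 ++ gface E N 1 2

/-- the context -/
def ctx0 (E N : ℕ) : List (List ℤ) :=
  ((List.range 8).map fun T => tbm E (at1 T)) ++ [[0, 0, 0, 0, 0, 0, 0, 0, 1]] ++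
  (((List.range 16).filter fun K => !(Nat.beq K 0) && clq E N K).map fun K =>
    tbm E (fun T => 2 - 3 * wK K T) ++ [- 3 * bi (K.testBit 3)])

end Pool.Agent.Imp3
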